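import Mathlib

set_option autoImplicit false

/-!
# Project KG (helper18): the nonmonotonic inhomogeneous Khintchine theorem in dimension two
(`MP_33a4a7_nt`, frozen statement `S16523`; a full solution).

Conventions: `T = R/Z`, `rho_q = psi(q)/q`, `d = gcd(q,r)`, `L = lcm(q,r)`, `q' = q/d`, `r' = r/d`.
Every Prop below is a piece with a complete paper proof in its comment.
-/

open MeasureTheory Finset Filter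

namespace Pool.Agent.W2helper18.KG

/-- the two-dimensional torus -/
abbrev TT := UnitAddCircle × UnitAddCircle

/-- the centre `(s + y)/q` on the circle -/
noncomputable def cc (q s : ℕ) (y : ℝ) : UnitAddCircle := ((((s : ℝ) + y) / q : ℝ) : UnitAddCircle)

/-- the open box of half side `δ` about `(a + y)/q` -/
def bx (q : ℕ) (a : ℕ × ℕ) (y : ℝ × ℝ) (δ : ℝ) : Set TT :=
  Metric.ball (cc q a.1 y.1) δ ×ˢ Metric.ball (cc q a.2 y.2) δ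

/-- the local inequality with parameter `θ` and constant `c` -/
def LocIneq (θ c : ℝ) : Prop := ∀ (n : ℕ) (a b : ℕ → ℝ), (∀ i, 0 ≤ a i) → (∀ i, 0 ≤ b i) →
  ∑ i ∈ range n, ∑ j ∈ range n, θ ^ ((i - j) + (j - i)) * a i ^ 3 * b j ^ 3 ≤
    c * (Real.sqrt (Real.sqrt ((∑ i ∈ range n, a i ^ 4) * ∑ i ∈ range n, b i ^ 4))) ^ 3

/-- PIECE LOC.  Proof. By homogeneity `Σ a^4 = Σ b^4 = 1` (if one sum is `0` all terms vanish), so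
`a i, b j ≤ 1`. Crude bound, used for `θ > 1/100`: `a^3 b^3 ≤ (a^6 + b^6)/2` and the row sums of
`θ^|i-j|` are `≤ (1+θ)/(1-θ) ≤ 9`, `a^6 ≤ a^4`, so the sum is `≤ 9 ≤ 1 + 10^9 θ^4`.
Let now `θ ≤ 1/100`, `m = max_i a i * b i`, attained at `I`.
Off-diagonal terms in total: `≤ (2θ/(1-θ)) (Σa^6+Σb^6)/2 ≤ 4θ`; diagonal terms:
`Σ a^3 b^3 ≤ m Σ a^2 b^2 ≤ m` (Cauchy-Schwarz). If `m ≤ 1 - 4θ` we are done (sum `≤ 1`).
If `m > 1 - 4θ` then `a I, b I > 1 - 4θ`; put `A = Σ_{i≠I} a i^4 = 1 - a I^4 ≤ 16θ`, `B` likewise.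
(I,I): `a_I^3 b_I^3 = (1-A)^{3/4}(1-B)^{3/4} ≤ (1-3A/4)(1-3B/4)` (use `(1-A)^3 ≤ (1-3A/4)^4`).
Diagonal `i≠I`: `≤ Σ (a^6+b^6)/2 ≤ 2 √θ (A+B)` (as `a i^2 ≤ √A ≤ 4√θ`).
`i≠I, j≠I, i≠j`: `≤ (2θ/(1-θ)) (A+B)/2 ≤ 2θ(A+B)`.
`i=I, j≠I`: `θ^k b^3 ≤ 16 θ^{4k} + (3/16) b^4` (Young, `k = |I-j| ≥ 1`), sum `≤ 64 θ^4 + (3/16) B`;
`j=I` the same with `A`. Total `≤ 1 - (A+B)(3/4 - 3/16 - 2√θ - 2θ) + (9/16)AB + 128θ^4 ≤ 1 + 128 θ^4`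
because `(9/16)AB ≤ 9θ(A+B)/2`, and `9/16 > 2/10 + 2/100 + 9/200`.
(The files `Pool/Agent/K7/H64/DS/Local.lean`, lemmas `amgm33`, `young34`, do something similar.) -/
def P_LOC : Prop := ∀ θ : ℝ, 0 ≤ θ → θ ≤ 4 / 5 → LocIneq θ (1 + 10 ^ 9 * θ ^ 4)

/-- PIECE TEN (tensorisation).  Proof: induction on `Q`. `Q = ∅`: `V`, `W` have at most one element,
equality. Step `insert p Q`: split `V = ⊔_i V_i`, `V_i = {v ∈ V | e v p = i}`, same for `W`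
(`i, j < n` for large `n`); on `V_i × W_j` the product is `θ_p^{|i-j|}` times the product over `Q`;
the induction hypothesis gives `≤ C_Q A_i^3 B_j^3` with `A_i = (Σ_{V_i} a^4)^{1/4}`; then `LocIneq`. -/
def P_TEN : Prop := ∀ (Q : Finset ℕ) (θ c : ℕ → ℝ),
  (∀ p ∈ Q, 0 ≤ θ p ∧ 0 ≤ c p ∧ LocIneq (θ p) (c p)) →
  ∀ (V W : Finset ℕ) (e : ℕ → ℕ → ℕ),
    (∀ v ∈ V, ∀ v' ∈ V, (∀ p ∈ Q, e v p = e v' p) → v = v') →
    (∀ w ∈ W, ∀ w' ∈ W, (∀ p ∈ Q, e w p = e w' p) → w = w') →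
    ∀ a b : ℕ → ℝ, (∀ v, 0 ≤ a v) → (∀ w, 0 ≤ b w) →
      ∑ v ∈ V, ∑ w ∈ W, (∏ p ∈ Q, θ p ^ ((e v p - e w p) + (e w p - e v p))) * a v ^ 3 * b w ^ 3 ≤
        (∏ p ∈ Q, c p) *
          (Real.sqrt (Real.sqrt ((∑ v ∈ V, a v ^ 4) * ∑ w ∈ W, b w ^ 4))) ^ 3

/-- PIECE KER (the kernel inequality).  Proof from LOC and TEN: `Q` = all primes dividing elements of
`F`, `θ p = p^(-3/8) ≤ 2^(-3/8) ≤ 4/5`, `c p = 1 + 10^9 p^(-3/2)`, `e v p = v.factorization p`;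
`∏_{p ∈ Q} p^{|v_p(q)-v_p(r)|} = (q/gcd)(r/gcd)`; `∏ c p ≤ exp(10^9 Σ_n n^(-3/2)) = C`; with
`V = W = F`, `a = b = s` the right side is `C ((Σ s^4)^2)^{3/4} = C (√(Σ s^4))^3`. -/
def P_KER : Prop := ∃ C : ℝ, 0 < C ∧ ∀ F : Finset ℕ, (∀ q ∈ F, 0 < q) → ∀ s : ℕ → ℝ,
  (∀ q, 0 ≤ s q) →
    ∑ q ∈ F, ∑ r ∈ F, s q ^ 3 * s r ^ 3 *
      ((((q / Nat.gcd q r) * (r / Nat.gcd q r) : ℕ) : ℝ) ^ (-(3 / 8) : ℝ)) ≤
    C * Real.sqrt (∑ q ∈ F, s q ^ 4) ^ 3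

/-- PIECE LNK.  Proof: the norm on the circle is the distance to the nearest integer `n0`; multiply
`|(s+y)/q - (t+y)/r - n0| < δ` by `L = lcm(q,r)`, `L/q = r/gcd`, `L/r = q/gcd`;
`k := -(r' s - q' t - n0 L)`. -/
def P_LNK : Prop := ∀ q r : ℕ, 0 < q → 0 < r → ∀ (y δ : ℝ) (s t : ℕ),
  dist (cc q s y) (cc r t y) < δ →
    ∃ k n : ℤ, |(((r / Nat.gcd q r : ℕ) : ℝ) - ((q / Nat.gcd q r : ℕ) : ℝ)) * y - k| <
        δ * (Nat.lcm q r : ℕ) ∧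
      ((r / Nat.gcd q r : ℕ) : ℤ) * s - ((q / Nat.gcd q r : ℕ) : ℤ) * t - n * (Nat.lcm q r : ℕ) = -k

/-- PIECE CNT (coincidences in one coordinate).  Proof: by LNK every pair `(s,t)` has an integer
`k` in an open interval of length `2δL`; there are at most `2δL + 1` such `k` (at most one if
`2δL < 1`; and `2δL + 1 ≤ 4δL` if `2δL ≥ 1`). For fixed `k`: `r's - q't ≡ -k (mod L)`, so
`s mod q'` is fixed (`gcd(q',r') = 1`), and `s` determines `t` (mod `r`): at most `gcd(q,r)` pairs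
(use `Finset.card_le_mul_card_image_of_maps_to`). Finally `gcd * lcm = q r`. -/
def P_CNT : Prop := ∀ q r : ℕ, 0 < q → 0 < r → ∀ y δ : ℝ, 0 < δ →
  (1 ≤ 2 * δ * (Nat.lcm q r : ℕ) →
    ((((range q ×ˢ range r).filter fun p : ℕ × ℕ => dist (cc q p.1 y) (cc r p.2 y) < δ).card : ℕ) : ℝ)
      ≤ 4 * δ * q * r) ∧
  (2 * δ * (Nat.lcm q r : ℕ) < 1 →
    ((range q ×ˢ range r).filter fun p : ℕ × ℕ => dist (cc q p.1 y) (cc r p.2 y) < δ).card ≤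
      Nat.gcd q r)

/-- `m y` is within `δ` of `Z^2` -/
def Near (y1 y2 δ : ℝ) (m : ℕ) : Prop := ∃ k1 k2 : ℤ, |(m : ℝ) * y1 - k1| < δ ∧ |(m : ℝ) * y2 - k2| < δ

open Classical in
/-- PIECE NR1.  Proof: two different `m, m'` in the set have `Near (2 e^(-1/8)) |m - m'|` and
`1 ≤ |m-m'| < e`, so `|m-m'| ≥ e^(1/64)`; so with `g = ⌈e^(1/64)⌉ ≥ 1` the map `m ↦ m / g` is injective
into `range (e/g + 1)`: at most `e^(63/64) + 1 ≤ 2 e^(63/64)` elements. -/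
def P_NR1 : Prop := ∀ (y1 y2 : ℝ) (e : ℕ), 1 ≤ e →
  (∀ m : ℕ, 1 ≤ m → (m : ℝ) < (e : ℝ) ^ (1 / 64 : ℝ) → ¬ Near y1 y2 (2 * (e : ℝ) ^ (-(1 / 8) : ℝ)) m) →
    ((((Ico 1 e).filter fun m => Near y1 y2 ((e : ℝ) ^ (-(1 / 8) : ℝ)) m).card : ℕ) : ℝ) ≤
      2 * (e : ℝ) ^ (63 / 64 : ℝ)

open Classical in
/-- PIECE NR2.  Proof. Put `ε = e^(-1/8)`, `h = |y - u/v|`, so `v h = |v y - u| < 2ε`. If the set `S` is
nonempty then `h ≥ 1/(2 v m) > 1/(2 v e)`; in particular `h > 0`. Let `t = ⌈2ε/(v h)⌉ ≥ 1`, `w = v t`;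
then `w h = v t h ∈ [2ε, 2ε + v h) ⊆ [2ε, 4ε)`. Let `J = ⌊1/(8ε)⌋` (`≥ 1`, and `≥ 1/(16ε)`, since
`8ε ≤ 1` for `e ≥ 10^40`). The map `(m,j) ↦ m + j w` is injective on `S × {0..J-1}`: otherwise
`m - m' = (j'-j) w` with `1 ≤ j'-j < J`, `(j'-j) w y = (j'-j) t u + (j'-j) w (y - u/v)`, where the last
summand has absolute value `(j'-j) w h ∈ [2ε, 4εJ) ⊆ [2ε, 1/2]`, so its distance to `Z` is `≥ 2ε`; but
`(m-m') y` has distance `< 2ε` to `Z`. The image is contained in `range (e + J w)`. Hence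
`|S| J ≤ e + J w`, `|S| ≤ e/J + w ≤ 16 ε e + v (2ε/(vh) + 1) = 16 ε e + 2ε/h + v
≤ 16 ε e + 4 ε v e + v ≤ 21 e^(57/64)` (`ε e = e^(56/64)`, `v < e^(1/64)`). -/
def P_NR2 : Prop := ∀ (y : ℝ) (e v : ℕ) (u : ℤ), 10 ^ 40 ≤ e → 1 ≤ v →
  (v : ℝ) < (e : ℝ) ^ (1 / 64 : ℝ) → |(v : ℝ) * y - u| < 2 * (e : ℝ) ^ (-(1 / 8) : ℝ) →
    ((((Ico 1 e).filter fun m : ℕ => (∃ k : ℤ, |(m : ℝ) * y - k| < (e : ℝ) ^ (-(1 / 8) : ℝ)) ∧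
      1 / (2 * (v : ℝ)) ≤ m * |y - u / v|).card : ℕ) : ℝ) ≤ 21 * (e : ℝ) ^ (57 / 64 : ℝ)

open Classical in
/-- PIECE STR (structure of the close denominators), from NR1 and NR2.  Proof. `P e` holds iff there is
`m ≥ 1`, `m < e^(1/64)` with `Near (2 e^(-1/8)) m`; then `v e` is the least `m ≥ 1` with
`Near (2e^(-1/8)) m`, and `u1 e, u2 e` are the integers with `|v y_i - u_i| < 2 e^(-1/8)`. If `g ∣ v, u1, u2`,
`g > 1`, then `v/g` would be a smaller such number: so `g = 1`. `E0 = 10^40` (any larger number is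
fine). The sum: if `¬ P e`, the filter is contained in the one of NR1, at most `2e^(63/64)` elements.
If `P e`, `e ≥ E0`: let `m` be in the filter, with `k1, k2`, and suppose `m |y_i - u_i/v| < 1/(2v)` for
`i = 1, 2`. Then `|m u_i/v - k_i| ≤ |m y_i - k_i| + m|y_i - u_i/v| < e^(-1/8) + 1/(2v) ≤ 1/v`
(`2 v ≤ 2 e^(1/64) ≤ e^(1/8)`), so `|m u_i - v k_i| < 1`, `m u_i = v k_i`: excluded. So `m` is in one of
the two sets of NR2 (`i = 1, 2`), at most `42 e^(57/64)` elements. In all cases the summand is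
`≤ 42 e^(63/64 - 2) = 42 e^(-65/64)`, and `C = 1 + 42 Σ_e e^(-65/64)`. -/
def P_STR : Prop := ∀ y1 y2 : ℝ, ∃ (C : ℝ) (E0 : ℕ) (P : ℕ → Prop) (v : ℕ → ℕ) (u1 u2 : ℕ → ℤ),
  0 < C ∧ 1 ≤ E0 ∧
  (∀ e, P e → 1 ≤ v e ∧ ∀ g : ℕ, g ∣ v e → (g : ℤ) ∣ u1 e → (g : ℤ) ∣ u2 e → g = 1) ∧
  ∀ n : ℕ, ∑ e ∈ Ico E0 n, ((((Ico 1 e).filter fun m : ℕ => ∃ k1 k2 : ℤ,
      |(m : ℝ) * y1 - k1| < (e : ℝ) ^ (-(1 / 8) : ℝ) ∧
      |(m : ℝ) * y2 - k2| < (e : ℝ) ^ (-(1 / 8) : ℝ) ∧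
      ¬ (P e ∧ (m : ℤ) * u1 e = v e * k1 ∧ (m : ℤ) * u2 e = v e * k2)).card : ℕ) : ℝ) / (e : ℝ) ^ 2 ≤ C

open Classical in
/-- PIECE REM (removal of residues).  Proof. For `e ∣ r` the set of `b ∈ (range r)^2` with
`e ∣ v b1 + u1`, `e ∣ v b2 + u2` (`v = v e` etc.) has at most `(r/e)^2` elements: if it is nonempty, then
`g = gcd(v, e)` divides `u1` and `u2`, so `g = 1`; `v` is invertible mod `e`, so `b1` and `b2` are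
determined mod `e`, and `b ↦ (b1 / e, b2 / e)` is injective into `(range (r/e))^2`. The union over
`e ≥ E1` has at most `r^2 Σ_{e ≥ E1} 1/e^2 ≤ r^2 * 2/E1 ≤ τ r^2` elements if `E1 ≥ 2/τ`. -/
def P_REM : Prop := ∀ (P : ℕ → Prop) (v : ℕ → ℕ) (u1 u2 : ℕ → ℤ),
  (∀ e, P e → 1 ≤ v e ∧ ∀ g : ℕ, g ∣ v e → (g : ℤ) ∣ u1 e → (g : ℤ) ∣ u2 e → g = 1) →
  ∀ τ : ℝ, 0 < τ → ∃ E1 : ℕ, ∀ r : ℕ, 0 < r →
    ((((range r ×ˢ range r).filter fun b : ℕ × ℕ => ∃ e : ℕ, E1 ≤ e ∧ 0 < e ∧ P e ∧ e ∣ r ∧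
      (e : ℤ) ∣ v e * b.1 + u1 e ∧ (e : ℤ) ∣ v e * b.2 + u2 e).card : ℕ) : ℝ) ≤ τ * (r : ℝ) ^ 2

/-- PIECE SM (second moment; helper18 does it), from KER, LNK, CNT, STR, REM. -/
def P_SM : Prop := ∀ (y : ℝ × ℝ) (τ : ℝ), 0 < τ → ∃ (C : ℝ) (G : ℕ → Finset (ℕ × ℕ)), 0 < C ∧
  (∀ q : ℕ, G q ⊆ range q ×ˢ range q) ∧
  (∀ q : ℕ, 0 < q → (1 - τ) * (q : ℝ) ^ 2 ≤ (G q).card) ∧
  ∀ ψ : ℕ → ℝ, (∀ q, 0 ≤ ψ q) → (∀ q, ψ q ≤ 1 / 8) → ∀ F : Finset ℕ, (∀ q ∈ F, 0 < q) →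
    ∑ q ∈ F, ∑ r ∈ F, ∑ a ∈ G q, ∑ b ∈ G r,
      (volume : Measure TT).real (bx q a y (ψ q / q) ∩ bx r b y (ψ r / r)) ≤
    C * (1 + ∑ q ∈ F, ψ q ^ 2) ^ 2

/-- PIECE EQD (equidistribution of the centres).  Proof. `g` is uniformly continuous (compact space):
there is `N` with `|g x - g z| ≤ ε/2` if `dist x z ≤ 1/N`. For `q ≥ N` and the centre `c_a` of the box `a`:
`∫_{box} g ≥ 4δ² (g(c_a) - ε/2)` (volume of a ball of the circle: `Pool.Agent.K7.H64.DS.vol_ball`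
in `Pool/Agent/K7/H64/DS/Circle.lean`, or `AddCircle.volume_closedBall`; box = product).
The closed boxes of half side `1/(2q)` about the `q²` centres cover the torus (round `q x - y`) and have
volume `1/q²`, so, as `g ≥ 0`, `∫ g ≤ Σ_a ∫_{closed box} g ≤ Σ_a (g(c_a) + ε/2)/q²`. Combine. -/
def P_EQD : Prop := ∀ g : TT → ℝ, Continuous g → (∀ x, 0 ≤ g x) → ∀ ε : ℝ, 0 < ε →
  ∃ N : ℕ, ∀ q : ℕ, N ≤ q → 0 < q → ∀ (y : ℝ × ℝ) (δ : ℝ), 0 ≤ δ → δ ≤ 1 / (8 * q) →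
    4 * δ ^ 2 * (q : ℝ) ^ 2 * ((∫ x, g x) - ε) ≤
      ∑ a ∈ range q ×ˢ range q, ∫ x in bx q a y δ, g x

/-- the almost-everywhere statement on the torus -/
def AET : Prop := ∀ (y : ℝ × ℝ) (ψ : ℕ → ℝ), (∀ q, 0 ≤ ψ q) → (∀ q, ψ q ≤ 1 / 8) →
  ¬ Summable (fun q : ℕ => ψ q ^ 2) →
  ∀ᵐ x : TT, ∃ᶠ q : ℕ in atTop, 0 < q ∧ ∃ a ∈ range q ×ˢ range q, x ∈ bx q a y (ψ q / q)

/-- PIECE WK (weak compactness argument), from SM and EQD.  Proof. Let `Z_N` = set of `x` lying in no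
box `bx q a y (ψ q/q)` with `q ≥ max N 1`, `a ∈ (range q)²` (closed set: boxes are open). If the claim
fails, some `Z_N` has measure `κ > 0`. `K := Z_N` is compact. `τ := κ/4`; take `C, G` from SM. Let `ε > 0`
be small (below). Choose `0 ≤ g ≤ 1` continuous, `g = 1` on `K`, with `∫_{Kᶜ} g² ≤ ε²` (e.g. open
`U ⊇ K` with measure of `U \ K` at most `ε²` and Urysohn, or `thickenedIndicator`). EQD with `g`, `ε`
gives `N1`. Let `F = Ico M M'`, `M ≥ max(N, N1, 1)`, with `Ψ = Σ_F ψ² ∈ [1, 2]` (possible: `ψ² ≤ 1/64`,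
divergent series). Let `H = Σ_{q∈F} Σ_{a ∈ G q} 1_{bx q a}`; `H = 0` on `K`, `∫ H² ≤ C(1+Ψ)² ≤ 9C`.
Upper bound: `H g ≤ (ε/2) H² + (1/(2ε)) g² 1_{Kᶜ}` pointwise, so `∫ H g ≤ (ε/2)(9C + 1)`.
Lower bound: `∫ H g ≥ Σ_F (Σ_{all a} ∫_{bx q a} g - Σ_{a ∉ G q} vol (bx q a))
≥ Σ_F (4ψ²(∫g - ε) - 4ψ² τ) = 4Ψ(∫ g - ε - τ) ≥ 4(κ - ε - κ/4) = 3κ - 4ε` (`∫ g ≥ κ`,
the bracket is `≥ 0`). Contradiction if `ε (9C+1)/2 + 4ε < 3κ`. -/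
def P_WK : Prop := P_SM → P_EQD → AET

/-- the frozen statement S16523 -/
def FIN : Prop := ∀ (y : ℝ × ℝ) (ψ : ℕ → ℝ), (∀ q, 0 ≤ ψ q) →
      ¬ Summable (fun q : ℕ => ψ q ^ 2) →
      ∀ᵐ x ∂(MeasureTheory.volume.restrict (Set.Icc (0 : ℝ × ℝ) 1)),
        {q : ℕ | 0 < q ∧ ∃ a : ℤ × ℤ,
          ‖(q : ℝ) • x - ((a.1 : ℝ), (a.2 : ℝ)) - y‖ < ψ q}.Infinite

/-- PIECE TR (transfer).  Proof. Replace `ψ` by `min ψ (1/8)` (`Σ min(ψ,1/8)²` still diverges: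
if `ψ > 1/8` infinitely often the terms do not tend to `0`, otherwise only finitely many terms
change). If `x = (x1,x2)` and the class of `x` lies in `bx q a y (ψ q/q)`, then
`‖x_i - (a_i + y_i)/q‖_{R/Z} < ψ q/q`, so `|x_i - (a_i+y_i)/q - n_i| < ψ q / q` for an integer `n_i`, and
`|q x_i - (a_i + q n_i) - y_i| < ψ q`; the norm of `ℝ × ℝ` is the max norm; `∃ᶠ` gives infinitely many `q`.
Almost everywhere: `UnitAddCircle.measurePreserving_mk` (on `Ioc 0 1`) and `MeasurePreserving.prod`,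
`QuasiMeasurePreserving.ae`; `Icc 0 1` and `Ioc 0 1 ×ˢ Ioc 0 1` differ by a null set. -/
def P_TR : Prop := AET → FIN

end Pool.Agent.W2helper18.KG
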