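import Pool.Agent.W2helper18.KG.Sm3
import Pool.Agent.W2helper24.KG.Ten
import Pool.Agent.W2helper53.KG.Eqd
import Pool.Agent.W2helper53.KG.Wk
import Pool.Agent.W2helper75.KG.Nr1
import Pool.Agent.W2helper75.KG.Rem
import Pool.Agent.W2helper78.KG.Nr2
import Pool.Agent.W2helper78.KG.Str
import Pool.Agent.W2helper82.KG.Ker
import Pool.Agent.W2helper82.KG.Lnk
import Pool.Agent.W2helper92.KG.Loc
import Pool.Agent.W4helper65.KG.Tr

set_option autoImplicit false

namespace Pool.Agent.W2helper18.KG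

/-- For every y in R^2 and every nonnegative psi on N with sum of psi(q)^2 infinite, almost every x in
[0,1]^2 has infinitely many q >= 1 with some integer vector a making the sup-norm of qx - a - y less
than psi(q). (Library theorem of project KG; not a hand-in.) -/
theorem khin2 :
    ∀ (y : ℝ × ℝ) (ψ : ℕ → ℝ), (∀ q, 0 ≤ ψ q) →
      ¬ Summable (fun q : ℕ => ψ q ^ 2) →
      ∀ᵐ x ∂(MeasureTheory.volume.restrict (Set.Icc (0 : ℝ × ℝ) 1)),
        {q : ℕ | 0 < q ∧ ∃ a : ℤ × ℤ,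
          ‖(q : ℝ) • x - ((a.1 : ℝ), (a.2 : ℝ)) - y‖ < ψ q}.Infinite := by
  exact Pool.Agent.W4helper65.KG.p_tr
    (Pool.Agent.W2helper53.KG.p_wk
      (Pool.Agent.W2helper18.KG.p_sm
        (Pool.Agent.W2helper82.KG.p_ker Pool.Agent.W2helper92.KG.p_loc Pool.Agent.W2helper24.KG.p_ten)
        Pool.Agent.W2helper82.KG.p_lnk
        (Pool.Agent.W2helper82.KG.p_cnt Pool.Agent.W2helper82.KG.p_lnk)
        (Pool.Agent.W2helper78.KG.p_str Pool.Agent.W2helper75.KG.p_nr1 Pool.Agent.W2helper78.KG.p_nr2)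
        Pool.Agent.W2helper75.KG.p_rem)
      Pool.Agent.W2helper53.KG.p_eqd)

end Pool.Agent.W2helper18.KG
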