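import Mathlib
import Pool.Agent.W2helper18.KG.Stm

set_option autoImplicit false

open MeasureTheory Finset Filter

namespace Pool.Agent.W2helper18.KG

lemma volr_ball (c : UnitAddCircle) (r : ℝ) (h0 : 0 ≤ r) (h1 : r ≤ 1 / 2) :
    (volume : Measure UnitAddCircle).real (Metric.ball c r) = 2 * r := by
  rw [measureReal_def, ← measure_congr (AddCircle.closedBall_ae_eq_ball (T := 1) (x := c) (ε := r)),
    AddCircle.volume_closedBall, min_eq_right (by linarith), ENNReal.toReal_ofReal (by linarith)]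

instance : IsProbabilityMeasure (volume : Measure UnitAddCircle) :=
  ⟨by rw [AddCircle.measure_univ]; simp⟩

open Classical in
lemma cap_le (c c' : UnitAddCircle) (δ δ' : ℝ) (h0 : 0 ≤ δ) (h1 : δ ≤ 1 / 2) (h0' : 0 ≤ δ')
    (h1' : δ' ≤ 1 / 2) :
    (volume : Measure UnitAddCircle).real (Metric.ball c δ ∩ Metric.ball c' δ') ≤
      if dist c c' < δ + δ' then 2 * min δ δ' else 0 := by
  split_ifs with h
  · rcases le_total δ δ' with hd | hd
    · rw [min_eq_left hd, ← volr_ball c δ h0 h1]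
      exact measureReal_mono Set.inter_subset_left (measure_ne_top _ _)
    · rw [min_eq_right hd, ← volr_ball c' δ' h0' h1']
      exact measureReal_mono Set.inter_subset_right (measure_ne_top _ _)
  · have : Metric.ball c δ ∩ Metric.ball c' δ' = ∅ := by
      rw [← Set.disjoint_iff_inter_eq_empty]
      exact Metric.ball_disjoint_ball (not_lt.1 h)
    rw [this]
    simp

lemma bx_cap (q r : ℕ) (a b : ℕ × ℕ) (y : ℝ × ℝ) (δ δ' : ℝ) :
    (volume : Measure TT).real (bx q a y δ ∩ bx r b y δ') =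
      (volume : Measure UnitAddCircle).real (Metric.ball (cc q a.1 y.1) δ ∩ Metric.ball (cc r b.1 y.1) δ') *
      (volume : Measure UnitAddCircle).real (Metric.ball (cc q a.2 y.2) δ ∩ Metric.ball (cc r b.2 y.2) δ') := by
  unfold bx
  rw [Set.prod_inter_prod, measureReal_def, Measure.volume_eq_prod, Measure.prod_prod,
    ENNReal.toReal_mul]
  rfl

/-- number of coincidences in one coordinate -/
noncomputable def nn (q r : ℕ) (y δ : ℝ) : ℕ := by
  classical
  exact ((range q ×ˢ range r).filter fun p : ℕ × ℕ => dist (cc q p.1 y) (cc r p.2 y) < δ).card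

open Classical in
lemma ov_le (q r : ℕ) (y : ℝ × ℝ) (δ δ' : ℝ) (h0 : 0 ≤ δ) (h1 : δ ≤ 1 / 2) (h0' : 0 ≤ δ')
    (h1' : δ' ≤ 1 / 2) (A B : Finset (ℕ × ℕ)) (hA : A ⊆ range q ×ˢ range q)
    (hB : B ⊆ range r ×ˢ range r) :
    ∑ a ∈ A, ∑ b ∈ B, (volume : Measure TT).real (bx q a y δ ∩ bx r b y δ') ≤
      (2 * min δ δ') ^ 2 * (nn q r y.1 (δ + δ') * nn q r y.2 (δ + δ')) := by
  have hm : 0 ≤ 2 * min δ δ' := by
    have := le_min h0 h0'
    linarith
  have key : ∀ a b : ℕ × ℕ, (volume : Measure TT).real (bx q a y δ ∩ bx r b y δ') ≤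
      (if dist (cc q a.1 y.1) (cc r b.1 y.1) < δ + δ' then 2 * min δ δ' else 0) *
      (if dist (cc q a.2 y.2) (cc r b.2 y.2) < δ + δ' then 2 * min δ δ' else 0) := by
    intro a b
    rw [bx_cap]
    refine mul_le_mul (cap_le _ _ _ _ h0 h1 h0' h1') (cap_le _ _ _ _ h0 h1 h0' h1')
      measureReal_nonneg ?_
    split_ifs
    · exact hm
    · exact le_rfl
  have hpos : ∀ a b : ℕ × ℕ, 0 ≤
      (if dist (cc q a.1 y.1) (cc r b.1 y.1) < δ + δ' then 2 * min δ δ' else 0) *
      (if dist (cc q a.2 y.2) (cc r b.2 y.2) < δ + δ' then 2 * min δ δ' else 0) := by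
    intro a b
    refine mul_nonneg ?_ ?_ <;>
    · split_ifs
      · exact hm
      · exact le_rfl
  calc ∑ a ∈ A, ∑ b ∈ B, (volume : Measure TT).real (bx q a y δ ∩ bx r b y δ')
      ≤ ∑ a ∈ A, ∑ b ∈ B,
        (if dist (cc q a.1 y.1) (cc r b.1 y.1) < δ + δ' then 2 * min δ δ' else 0) *
        (if dist (cc q a.2 y.2) (cc r b.2 y.2) < δ + δ' then 2 * min δ δ' else 0) :=
        sum_le_sum fun a _ => sum_le_sum fun b _ => key a b
    _ ≤ ∑ a ∈ range q ×ˢ range q, ∑ b ∈ range r ×ˢ range r,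
        (if dist (cc q a.1 y.1) (cc r b.1 y.1) < δ + δ' then 2 * min δ δ' else 0) *
        (if dist (cc q a.2 y.2) (cc r b.2 y.2) < δ + δ' then 2 * min δ δ' else 0) := by
        refine (sum_le_sum fun a _ => sum_le_sum_of_subset_of_nonneg hB fun b _ _ => hpos a b).trans ?_
        exact sum_le_sum_of_subset_of_nonneg hA fun a _ _ => sum_nonneg fun b _ => hpos a b
    _ = (∑ s ∈ range q, ∑ t ∈ range r,
          (if dist (cc q s y.1) (cc r t y.1) < δ + δ' then 2 * min δ δ' else 0)) *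
        (∑ s ∈ range q, ∑ t ∈ range r,
          (if dist (cc q s y.2) (cc r t y.2) < δ + δ' then 2 * min δ δ' else 0)) := by
        rw [sum_product, sum_mul_sum]
        refine sum_congr rfl fun s _ => ?_
        refine sum_congr rfl fun s' _ => ?_
        rw [sum_product, sum_mul_sum]
    _ = (2 * min δ δ' * nn q r y.1 (δ + δ')) * (2 * min δ δ' * nn q r y.2 (δ + δ')) := by
        have h : ∀ z : ℝ, (∑ s ∈ range q, ∑ t ∈ range r,
          (if dist (cc q s z) (cc r t z) < δ + δ' then 2 * min δ δ' else 0)) =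
            2 * min δ δ' * nn q r z (δ + δ') := by
          intro z
          rw [← sum_product' (f := fun s t =>
            (if dist (cc q s z) (cc r t z) < δ + δ' then 2 * min δ δ' else 0)), ← sum_filter, sum_const,
            nsmul_eq_mul, mul_comm]
          rfl
        rw [h, h]
    _ = _ := by ring

open Classical in
lemma ov_zero (q r : ℕ) (y : ℝ × ℝ) (δ δ' : ℝ) (h0 : 0 ≤ δ) (h1 : δ ≤ 1 / 2) (h0' : 0 ≤ δ')
    (h1' : δ' ≤ 1 / 2) (A B : Finset (ℕ × ℕ))
    (h : ¬ ∃ a ∈ A, ∃ b ∈ B, dist (cc q a.1 y.1) (cc r b.1 y.1) < δ + δ' ∧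
      dist (cc q a.2 y.2) (cc r b.2 y.2) < δ + δ') :
    ∑ a ∈ A, ∑ b ∈ B, (volume : Measure TT).real (bx q a y δ ∩ bx r b y δ') = 0 := by
  refine sum_eq_zero fun a ha => sum_eq_zero fun b hb => ?_
  rw [bx_cap]
  by_cases h2 : dist (cc q a.1 y.1) (cc r b.1 y.1) < δ + δ'
  · have h3 : ¬ dist (cc q a.2 y.2) (cc r b.2 y.2) < δ + δ' := fun h3 => h ⟨a, ha, b, hb, h2, h3⟩
    have h4 := cap_le (cc q a.2 y.2) (cc r b.2 y.2) δ δ' h0 h1 h0' h1'
    rw [if_neg h3] at h4
    rw [le_antisymm h4 measureReal_nonneg, mul_zero]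
  · have h4 := cap_le (cc q a.1 y.1) (cc r b.1 y.1) δ δ' h0 h1 h0' h1'
    rw [if_neg h2] at h4
    rw [le_antisymm h4 measureReal_nonneg, zero_mul]

lemma ov_symm (q r : ℕ) (y : ℝ × ℝ) (δ δ' : ℝ) (A B : Finset (ℕ × ℕ)) :
    ∑ a ∈ A, ∑ b ∈ B, (volume : Measure TT).real (bx q a y δ ∩ bx r b y δ') =
    ∑ b ∈ B, ∑ a ∈ A, (volume : Measure TT).real (bx r b y δ' ∩ bx q a y δ) := by
  rw [sum_comm]
  refine sum_congr rfl fun b _ => sum_congr rfl fun a _ => ?_
  rw [Set.inter_comm]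

end Pool.Agent.W2helper18.KG
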