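import Mathlib
import Pool.Agent.W2helper18.KG.Ov

set_option autoImplicit false

open MeasureTheory Finset Filter

namespace Pool.Agent.W2helper18.KG

lemma nn_far (hcnt : P_CNT) (q r : ℕ) (hq : 0 < q) (hr : 0 < r) (y δ : ℝ) (hδ : 0 < δ)
    (h : 1 ≤ 2 * δ * (Nat.lcm q r : ℕ)) : (nn q r y δ : ℝ) ≤ 4 * δ * q * r := by
  have := (hcnt q r hq hr y δ hδ).1 h
  unfold nn
  convert this

lemma nn_close (hcnt : P_CNT) (q r : ℕ) (hq : 0 < q) (hr : 0 < r) (y δ : ℝ) (hδ : 0 < δ)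
    (h : 2 * δ * (Nat.lcm q r : ℕ) < 1) : (nn q r y δ : ℝ) ≤ Nat.gcd q r := by
  have := (hcnt q r hq hr y δ hδ).2 h
  unfold nn
  exact_mod_cast (by convert this)

lemma large_real (x z a b : ℝ) (hx : 0 ≤ x) (hz : 0 ≤ z) (ha : 1 ≤ a) (hb : 1 ≤ b)
    (hl : b ^ (-(1 / 8) : ℝ) ≤ x * b + z * a) :
    (2 * min (x / a) (z / b)) ^ 2 ≤ 8 * (Real.sqrt x ^ 3 * Real.sqrt z ^ 3 * (a * b) ^ (-(3 / 8) : ℝ)) := by
  have ha0 : 0 < a := by linarith
  have hb0 : 0 < b := by linarith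
  have hab0 : 0 < a * b := by positivity
  set M := max (x * b) (z * a) with hM
  set X := Real.sqrt x with hX
  set Z := Real.sqrt z with hZ
  have hX0 : 0 ≤ X := Real.sqrt_nonneg _
  have hZ0 : 0 ≤ Z := Real.sqrt_nonneg _
  have hX2 : X ^ 2 = x := Real.sq_sqrt hx
  have hZ2 : Z ^ 2 = z := Real.sq_sqrt hz
  have h1 : x * b ≤ M := le_max_left _ _
  have h2 : z * a ≤ M := le_max_right _ _
  have hbp : 0 < b ^ (-(1 / 8) : ℝ) := Real.rpow_pos_of_pos hb0 _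
  have h2M : b ^ (-(1 / 8) : ℝ) ≤ 2 * M := by linarith
  have hM0 : 0 < M := by linarith
  have hmin0 : 0 ≤ min (x / a) (z / b) := le_min (by positivity) (by positivity)
  have hminM : min (x / a) (z / b) * M ≤ x * z := by
    rcases le_total (x * b) (z * a) with h | h
    · rw [hM, max_eq_right h]
      calc min (x / a) (z / b) * (z * a) ≤ (x / a) * (z * a) :=
            mul_le_mul_of_nonneg_right (min_le_left _ _) (by positivity)
        _ = x * z := by field_simp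
    · rw [hM, max_eq_left h]
      calc min (x / a) (z / b) * (x * b) ≤ (z / b) * (x * b) :=
            mul_le_mul_of_nonneg_right (min_le_right _ _) (by positivity)
        _ = x * z := by field_simp
  set P := (a * b) ^ (-(3 / 8) : ℝ) with hP
  have hP0 : 0 < P := Real.rpow_pos_of_pos hab0 _
  set Q := (a * b) ^ (-(1 / 2) : ℝ) with hQ
  have hQ0 : 0 < Q := Real.rpow_pos_of_pos hab0 _
  set R := (a * b) ^ (-(1 / 8) : ℝ) with hR
  have hR0 : 0 < R := Real.rpow_pos_of_pos hab0 _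
  have hRP : R * P = Q := by
    rw [hR, hP, hQ, ← Real.rpow_add hab0]
    norm_num
  have hQ2 : Q ^ 2 * (a * b) = 1 := by
    have h3 : (Q : ℝ) ^ 2 = (a * b) ^ (-1 : ℝ) := by
      rw [hQ, ← Real.rpow_natCast, ← Real.rpow_mul hab0.le]
      norm_num
    rw [h3, Real.rpow_neg_one]
    exact inv_mul_cancel₀ hab0.ne'
  have hRb : R ≤ b ^ (-(1 / 8) : ℝ) := by
    rw [hR]
    exact Real.rpow_le_rpow_of_nonpos hb0 (by nlinarith) (by norm_num)
  -- XZ ≤ M Q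
  have hXZ : X * Z ≤ M * Q := by
    have h3 : (X * Z) ^ 2 ≤ (M * Q) ^ 2 := by
      have h4 : (x * b) * (z * a) ≤ M * M := mul_le_mul h1 h2 (by positivity) hM0.le
      have h5 : (X * Z) ^ 2 = ((x * b) * (z * a)) * Q ^ 2 := by
        calc (X * Z) ^ 2 = X ^ 2 * Z ^ 2 := by ring
          _ = x * z * 1 := by rw [hX2, hZ2, mul_one]
          _ = x * z * (Q ^ 2 * (a * b)) := by rw [hQ2]
          _ = _ := by ring
      rw [h5]
      calc ((x * b) * (z * a)) * Q ^ 2 ≤ (M * M) * Q ^ 2 :=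
            mul_le_mul_of_nonneg_right h4 (by positivity)
        _ = (M * Q) ^ 2 := by ring
    exact le_of_sq_le_sq h3 (by positivity)
  have hXZ2 : X * Z ≤ 2 * M ^ 2 * P := by
    calc X * Z ≤ M * Q := hXZ
      _ = M * (R * P) := by rw [hRP]
      _ ≤ M * ((2 * M) * P) := by
          have : R ≤ 2 * M := hRb.trans h2M
          gcongr
      _ = _ := by ring
  have hmin : min (x / a) (z / b) ≤ (X * Z) ^ 2 / M := by
    rw [le_div_iff₀ hM0]
    calc _ ≤ x * z := hminM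
      _ = _ := by rw [mul_pow, hX2, hZ2]
  calc (2 * min (x / a) (z / b)) ^ 2 ≤ (2 * ((X * Z) ^ 2 / M)) ^ 2 := by
        gcongr
    _ = 4 * ((X * Z) ^ 3 * (X * Z)) / M ^ 2 := by field_simp; ring
    _ ≤ 4 * ((X * Z) ^ 3 * (2 * M ^ 2 * P)) / M ^ 2 := by
        have : 0 ≤ X * Z := by positivity
        gcongr
    _ = 8 * (X ^ 3 * Z ^ 3 * P) := by field_simp; ring

/-- smallness condition of a pair `q < r` -/
def Sml (G : ℕ → Finset (ℕ × ℕ)) (y : ℝ × ℝ) (ψ : ℕ → ℝ) (q r : ℕ) : Prop :=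
  q < r ∧ (ψ q / q + ψ r / r) * (Nat.lcm q r : ℕ) < ((r / Nat.gcd q r : ℕ) : ℝ) ^ (-(1 / 8) : ℝ) ∧
  ∃ a ∈ G q, ∃ b ∈ G r, dist (cc q a.1 y.1) (cc r b.1 y.1) < ψ q / q + ψ r / r ∧
      dist (cc q a.2 y.2) (cc r b.2 y.2) < ψ q / q + ψ r / r

open Classical in
/-- the bound of one pair `q < r` -/
lemma pair_lt (hcnt : P_CNT) (G : ℕ → Finset (ℕ × ℕ)) (hG : ∀ q : ℕ, G q ⊆ range q ×ˢ range q)
    (y : ℝ × ℝ) (ψ : ℕ → ℝ) (h0 : ∀ q, 0 ≤ ψ q) (h1 : ∀ q, ψ q ≤ 1 / 8) (q r : ℕ) (hq : 0 < q)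
    (hqr : q < r) :
    ∑ a ∈ G q, ∑ b ∈ G r, (volume : Measure TT).real (bx q a y (ψ q / q) ∩ bx r b y (ψ r / r)) ≤
      256 * (ψ q ^ 2 * ψ r ^ 2) +
      8 * (Real.sqrt (ψ q) ^ 3 * Real.sqrt (ψ r) ^ 3 *
        ((((q / Nat.gcd q r) * (r / Nat.gcd q r) : ℕ) : ℝ) ^ (-(3 / 8) : ℝ))) +
      (if Sml G y ψ q r then 4 * ψ r ^ 2 / ((r / Nat.gcd q r : ℕ) : ℝ) ^ 2 else 0) := by
  have hr : 0 < r := by omega
  have hq0 : (0 : ℝ) < q := by exact_mod_cast hq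
  have hr0 : (0 : ℝ) < r := by exact_mod_cast hr
  have hq1 : (1 : ℝ) ≤ q := by exact_mod_cast hq
  have hr1 : (1 : ℝ) ≤ r := by exact_mod_cast hr
  set δ := ψ q / q with hδ
  set δ' := ψ r / r with hδ'
  have hδ0 : 0 ≤ δ := div_nonneg (h0 q) hq0.le
  have hδ'0 : 0 ≤ δ' := div_nonneg (h0 r) hr0.le
  have hδ1 : δ ≤ 1 / 2 := by
    rw [hδ, div_le_iff₀ hq0]; nlinarith [h1 q]
  have hδ'1 : δ' ≤ 1 / 2 := by
    rw [hδ', div_le_iff₀ hr0]; nlinarith [h1 r]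
  have hT1 : 0 ≤ 256 * (ψ q ^ 2 * ψ r ^ 2) := by positivity
  have hT2 : 0 ≤ 8 * (Real.sqrt (ψ q) ^ 3 * Real.sqrt (ψ r) ^ 3 *
        ((((q / Nat.gcd q r) * (r / Nat.gcd q r) : ℕ) : ℝ) ^ (-(3 / 8) : ℝ))) := by positivity
  have hT3 : 0 ≤ (if Sml G y ψ q r then 4 * ψ r ^ 2 / ((r / Nat.gcd q r : ℕ) : ℝ) ^ 2 else 0) := by
    split_ifs <;> positivity
  by_cases hex : ∃ a ∈ G q, ∃ b ∈ G r, dist (cc q a.1 y.1) (cc r b.1 y.1) < δ + δ' ∧
      dist (cc q a.2 y.2) (cc r b.2 y.2) < δ + δ'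
  swap
  · rw [ov_zero q r y δ δ' hδ0 hδ1 hδ'0 hδ'1 (G q) (G r) hex]
    linarith
  have hpos : 0 < δ + δ' := by
    obtain ⟨a, _, b, _, h2, _⟩ := hex
    exact lt_of_le_of_lt dist_nonneg h2
  have hov := ov_le q r y δ δ' hδ0 hδ1 hδ'0 hδ'1 (G q) (G r) (hG q) (hG r)
  have hmin0 : 0 ≤ min δ δ' := le_min hδ0 hδ'0
  by_cases hfar : 1 ≤ 2 * (δ + δ') * (Nat.lcm q r : ℕ)
  · -- far pairs
    have hn1 := nn_far hcnt q r hq hr y.1 (δ + δ') hpos hfar
    have hn2 := nn_far hcnt q r hq hr y.2 (δ + δ') hpos hfar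
    have h3 : min δ δ' * (δ + δ') ≤ 2 * (δ * δ') := by
      rcases le_total δ δ' with h | h
      · rw [min_eq_left h]; nlinarith
      · rw [min_eq_right h]; nlinarith
    have h4 : δ * q = ψ q := by rw [hδ]; field_simp
    have h5 : δ' * r = ψ r := by rw [hδ']; field_simp
    have h6 : (2 * min δ δ') ^ 2 * (nn q r y.1 (δ + δ') * nn q r y.2 (δ + δ')) ≤
        256 * (ψ q ^ 2 * ψ r ^ 2) := by
      calc (2 * min δ δ') ^ 2 * (nn q r y.1 (δ + δ') * nn q r y.2 (δ + δ'))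
          ≤ (2 * min δ δ') ^ 2 * ((4 * (δ + δ') * q * r) * (4 * (δ + δ') * q * r)) := by
            gcongr
        _ = 64 * ((min δ δ' * (δ + δ')) * (q * r)) ^ 2 := by ring
        _ ≤ 64 * ((2 * (δ * δ')) * (q * r)) ^ 2 := by
            gcongr
        _ = 256 * ((δ * q) ^ 2 * (δ' * r) ^ 2) := by ring
        _ = _ := by rw [h4, h5]
    linarith
  · -- close pairs
    push Not at hfar
    have hn1 := nn_close hcnt q r hq hr y.1 (δ + δ') hpos hfar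
    have hn2 := nn_close hcnt q r hq hr y.2 (δ + δ') hpos hfar
    set d := Nat.gcd q r with hd
    have hd0 : 0 < d := Nat.gcd_pos_of_pos_left _ hq
    have hd0' : (0 : ℝ) < d := by exact_mod_cast hd0
    obtain ⟨q1, hq1'⟩ : d ∣ q := Nat.gcd_dvd_left q r
    obtain ⟨r1, hr1'⟩ : d ∣ r := Nat.gcd_dvd_right q r
    have hqd : q / d = q1 := Nat.div_eq_of_eq_mul_right hd0 hq1'
    have hrd : r / d = r1 := Nat.div_eq_of_eq_mul_right hd0 hr1'
    have hq1pos : 0 < q1 := Nat.pos_of_ne_zero (by rintro rfl; omega)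
    have hr1pos : 0 < r1 := Nat.pos_of_ne_zero (by rintro rfl; omega)
    have hq1r : (1 : ℝ) ≤ q1 := by exact_mod_cast hq1pos
    have hr1r : (1 : ℝ) ≤ r1 := by exact_mod_cast hr1pos
    have hlcm : Nat.lcm q r = d * q1 * r1 := by
      have h := Nat.gcd_mul_lcm q r
      rw [← hd] at h
      have h' : d * Nat.lcm q r = d * (d * q1 * r1) := by
        rw [h]
        calc q * r = (d * q1) * (d * r1) := by rw [← hq1', ← hr1']
          _ = _ := by ring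
      exact Nat.eq_of_mul_eq_mul_left hd0 h'
    have hqc : (q : ℝ) = d * q1 := by exact_mod_cast hq1'
    have hrc : (r : ℝ) = d * r1 := by exact_mod_cast hr1'
    have hδd : δ * d = ψ q / q1 := by
      rw [hδ, hqc]; field_simp
    have hδ'd : δ' * d = ψ r / r1 := by
      rw [hδ', hrc]; field_simp
    have hmind : min δ δ' * d = min (ψ q / q1) (ψ r / r1) := by
      rw [← hδd, ← hδ'd, min_mul_of_nonneg _ _ hd0'.le]
    have h6 : (2 * min δ δ') ^ 2 * (nn q r y.1 (δ + δ') * nn q r y.2 (δ + δ')) ≤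
        (2 * min (ψ q / q1) (ψ r / r1)) ^ 2 := by
      calc (2 * min δ δ') ^ 2 * (nn q r y.1 (δ + δ') * nn q r y.2 (δ + δ'))
          ≤ (2 * min δ δ') ^ 2 * ((d : ℝ) * d) := by gcongr
        _ = (2 * (min δ δ' * d)) ^ 2 := by ring
        _ = _ := by rw [hmind]
    have hsum : (δ + δ') * (Nat.lcm q r : ℕ) = ψ q * r1 + ψ r * q1 := by
      rw [hlcm]
      push_cast
      calc (δ + δ') * (d * q1 * r1) = (δ * d) * q1 * r1 + (δ' * d) * r1 * q1 := by ring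
        _ = _ := by rw [hδd, hδ'd]; field_simp
    rw [hqd, hrd]
    rw [hqd, hrd] at hT2
    rw [hrd] at hT3
    by_cases hl : (r1 : ℝ) ^ (-(1 / 8) : ℝ) ≤ (δ + δ') * (Nat.lcm q r : ℕ)
    · rw [hsum] at hl
      have h7 := large_real (ψ q) (ψ r) q1 r1 (h0 q) (h0 r) hq1r hr1r hl
      have h8 : (((q1 * r1 : ℕ) : ℝ)) = (q1 : ℝ) * r1 := by push_cast; ring
      rw [h8] at hT2 ⊢
      linarith
    · push Not at hl
      have hs : Sml G y ψ q r := by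
        refine ⟨hqr, ?_, hex⟩
        rw [← hd, hrd]
        exact hl
      rw [if_pos hs]
      have h7 : (2 * min (ψ q / q1) (ψ r / r1)) ^ 2 ≤ 4 * ψ r ^ 2 / (r1 : ℝ) ^ 2 := by
        have h8 : 0 ≤ min (ψ q / q1) (ψ r / r1) :=
          le_min (div_nonneg (h0 q) (by positivity)) (div_nonneg (h0 r) (by positivity))
        calc (2 * min (ψ q / q1) (ψ r / r1)) ^ 2 ≤ (2 * (ψ r / r1)) ^ 2 := by
              gcongr
              exact min_le_right _ _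
          _ = _ := by field_simp; ring
      linarith

open Classical in
/-- the diagonal -/
lemma pair_eq (hcnt : P_CNT) (G : ℕ → Finset (ℕ × ℕ)) (hG : ∀ q : ℕ, G q ⊆ range q ×ˢ range q)
    (y : ℝ × ℝ) (ψ : ℕ → ℝ) (h0 : ∀ q, 0 ≤ ψ q) (h1 : ∀ q, ψ q ≤ 1 / 8) (q : ℕ) (hq : 0 < q) :
    ∑ a ∈ G q, ∑ b ∈ G q, (volume : Measure TT).real (bx q a y (ψ q / q) ∩ bx q b y (ψ q / q)) ≤
      4 * ψ q ^ 2 := by
  have hq0 : (0 : ℝ) < q := by exact_mod_cast hq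
  have hq1 : (1 : ℝ) ≤ q := by exact_mod_cast hq
  set δ := ψ q / q with hδ
  have hδ0 : 0 ≤ δ := div_nonneg (h0 q) hq0.le
  have hδ1 : δ ≤ 1 / 2 := by
    rw [hδ, div_le_iff₀ hq0]; nlinarith [h1 q]
  by_cases hex : ∃ a ∈ G q, ∃ b ∈ G q, dist (cc q a.1 y.1) (cc q b.1 y.1) < δ + δ ∧
      dist (cc q a.2 y.2) (cc q b.2 y.2) < δ + δ
  swap
  · rw [ov_zero q q y δ δ hδ0 hδ1 hδ0 hδ1 (G q) (G q) hex]
    have := h0 q
    positivity
  have hpos : 0 < δ + δ := by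
    obtain ⟨a, _, b, _, h2, _⟩ := hex
    exact lt_of_le_of_lt dist_nonneg h2
  have hov := ov_le q q y δ δ hδ0 hδ1 hδ0 hδ1 (G q) (G q) (hG q) (hG q)
  have h4 : δ * q = ψ q := by rw [hδ]; field_simp
  have hclose : 2 * (δ + δ) * (Nat.lcm q q : ℕ) < 1 := by
    rw [Nat.lcm_self]
    have : 2 * (δ + δ) * q = 4 * (δ * q) := by ring
    rw [this, h4]
    linarith [h1 q]
  have hn1 := nn_close hcnt q q hq hq y.1 (δ + δ) hpos hclose
  have hn2 := nn_close hcnt q q hq hq y.2 (δ + δ) hpos hclose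
  rw [Nat.gcd_self] at hn1 hn2
  refine hov.trans ?_
  rw [min_self]
  calc (2 * δ) ^ 2 * (nn q q y.1 (δ + δ) * nn q q y.2 (δ + δ)) ≤ (2 * δ) ^ 2 * ((q : ℝ) * q) := by
        gcongr
    _ = 4 * (δ * q) ^ 2 := by ring
    _ = _ := by rw [h4]

end Pool.Agent.W2helper18.KG
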