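import Mathlib
import Pool.Agent.W2helper18.KG.Sm

set_option autoImplicit false

open MeasureTheory Finset Filter

namespace Pool.Agent.W2helper18.KG

open Classical in
/-- the good residues -/
noncomputable def GG (E1 : ℕ) (P : ℕ → Prop) (v : ℕ → ℕ) (u1 u2 : ℕ → ℤ) (r : ℕ) : Finset (ℕ × ℕ) :=
  (range r ×ˢ range r).filter fun b : ℕ × ℕ => ¬ ∃ e : ℕ, E1 ≤ e ∧ 0 < e ∧ P e ∧ e ∣ r ∧
      (e : ℤ) ∣ v e * b.1 + u1 e ∧ (e : ℤ) ∣ v e * b.2 + u2 e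

/-- the exceptional `m` for the divisor `e` -/
def Exc (y1 y2 : ℝ) (P : ℕ → Prop) (v : ℕ → ℕ) (u1 u2 : ℕ → ℤ) (e m : ℕ) : Prop := ∃ k1 k2 : ℤ,
      |(m : ℝ) * y1 - k1| < (e : ℝ) ^ (-(1 / 8) : ℝ) ∧
      |(m : ℝ) * y2 - k2| < (e : ℝ) ^ (-(1 / 8) : ℝ) ∧
      ¬ (P e ∧ (m : ℤ) * u1 e = v e * k1 ∧ (m : ℤ) * u2 e = v e * k2)

/-- divisibility for an exact coincidence -/
lemma dvd_of_exact (q1 r1 : ℕ) (hcop : Nat.Coprime q1 r1) (v : ℕ) (u : ℤ) (s t : ℕ) (k n : ℤ) (L : ℕ)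
    (hL : r1 ∣ L) (hk : (r1 : ℤ) * s - (q1 : ℤ) * t - n * L = -k)
    (hex : ((r1 : ℤ) - q1) * u = v * k) : (r1 : ℤ) ∣ v * t + u := by
  have h1 : (q1 : ℤ) * (v * t + u) = r1 * (v * s + u) - v * n * L := by
    linear_combination (-(v : ℤ)) * hk - hex
  have h2 : (r1 : ℤ) ∣ (q1 : ℤ) * (v * t + u) := by
    rw [h1]
    refine dvd_sub (dvd_mul_right _ _) ?_
    exact Dvd.dvd.mul_left (by exact_mod_cast hL) _
  have h3 : IsCoprime (r1 : ℤ) (q1 : ℤ) := by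
    exact_mod_cast Nat.isCoprime_iff_coprime.2 hcop.symm
  exact h3.dvd_of_dvd_mul_left h2

lemma mem_GG (E1 : ℕ) (P : ℕ → Prop) (v : ℕ → ℕ) (u1 u2 : ℕ → ℤ) (r : ℕ) (b : ℕ × ℕ)
    (hb : b ∈ GG E1 P v u1 u2 r) : ¬ ∃ e : ℕ, E1 ≤ e ∧ 0 < e ∧ P e ∧ e ∣ r ∧
      (e : ℤ) ∣ v e * b.1 + u1 e ∧ (e : ℤ) ∣ v e * b.2 + u2 e := by
  classical
  unfold GG at hb
  exact (mem_filter.1 hb).2

/-- a small pair gives an exceptional `m` -/
lemma exc_of_sml (hlnk : P_LNK) (E1 : ℕ) (P : ℕ → Prop) (v : ℕ → ℕ) (u1 u2 : ℕ → ℤ) (y : ℝ × ℝ)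
    (ψ : ℕ → ℝ) (q r : ℕ) (hq : 0 < q) (hE : E1 ≤ r / Nat.gcd q r)
    (h : Sml (GG E1 P v u1 u2) y ψ q r) :
    Exc y.1 y.2 P v u1 u2 (r / Nat.gcd q r) (r / Nat.gcd q r - q / Nat.gcd q r) := by
  obtain ⟨hqr, hsm, a, ha, b, hb, hd1, hd2⟩ := h
  have hr : 0 < r := by omega
  obtain ⟨k1, n1, h1, h1'⟩ := hlnk q r hq hr y.1 _ a.1 b.1 hd1
  obtain ⟨k2, n2, h2, h2'⟩ := hlnk q r hq hr y.2 _ a.2 b.2 hd2
  set d := Nat.gcd q r with hd
  have hd0 : 0 < d := Nat.gcd_pos_of_pos_left _ hq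
  have hdr : d ∣ r := Nat.gcd_dvd_right q r
  have hdq : d ∣ q := Nat.gcd_dvd_left q r
  have hle : q / d ≤ r / d := Nat.div_le_div_right hqr.le
  have hcop : Nat.Coprime (q / d) (r / d) := Nat.coprime_div_gcd_div_gcd hd0
  have he0 : 0 < r / d := Nat.div_pos (Nat.le_of_dvd hr hdr) hd0
  have hcast : (((r / d - q / d : ℕ)) : ℝ) = ((r / d : ℕ) : ℝ) - ((q / d : ℕ) : ℝ) := by
    rw [Nat.cast_sub hle]
  have hcastZ : (((r / d - q / d : ℕ)) : ℤ) = ((r / d : ℕ) : ℤ) - ((q / d : ℕ) : ℤ) := by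
    rw [Nat.cast_sub hle]
  refine ⟨k1, k2, ?_, ?_, ?_⟩
  · rw [hcast]; exact h1.trans hsm
  · rw [hcast]; exact h2.trans hsm
  · rintro ⟨hP, hx1, hx2⟩
    rw [hcastZ] at hx1 hx2
    have hL : r / d ∣ Nat.lcm q r := (Nat.div_dvd_of_dvd hdr).trans (Nat.dvd_lcm_right q r)
    have h3 := dvd_of_exact (q / d) (r / d) hcop (v (r / d)) (u1 (r / d)) a.1 b.1 k1 n1 _ hL h1' hx1
    have h4 := dvd_of_exact (q / d) (r / d) hcop (v (r / d)) (u2 (r / d)) a.2 b.2 k2 n2 _ hL h2' hx2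
    exact mem_GG E1 P v u1 u2 r b hb ⟨r / d, hE, he0, hP, Nat.div_dvd_of_dvd hdr, h3, h4⟩

open Classical in
/-- the sum over the small pairs with a fixed larger element -/
lemma sml_sum (hlnk : P_LNK) (C : ℝ) (E0 E1 : ℕ) (P : ℕ → Prop) (v : ℕ → ℕ) (u1 u2 : ℕ → ℤ)
    (y : ℝ × ℝ) (hE01 : E0 ≤ E1)
    (hC : ∀ n : ℕ, ∑ e ∈ Ico E0 n, ((((Ico 1 e).filter fun m : ℕ => Exc y.1 y.2 P v u1 u2 e m).card
      : ℕ) : ℝ) / (e : ℝ) ^ 2 ≤ C)
    (ψ : ℕ → ℝ) (F : Finset ℕ) (hF : ∀ q ∈ F, 0 < q) (r : ℕ) (hr : 0 < r) :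
    ∑ q ∈ F, (if Sml (GG E1 P v u1 u2) y ψ q r then 1 / ((r / Nat.gcd q r : ℕ) : ℝ) ^ 2 else 0) ≤
      E1 + C := by
  rw [← sum_filter]
  set T := F.filter (fun q => Sml (GG E1 P v u1 u2) y ψ q r) with hT
  set φ : ℕ → (Σ _ : ℕ, ℕ) := fun q => ⟨r / Nat.gcd q r, r / Nat.gcd q r - q / Nat.gcd q r⟩ with hφ
  set S : Finset (Σ _ : ℕ, ℕ) := (Ico 1 (E1 + r + 1)).sigma (fun e => (Ico 1 e).filter fun m : ℕ =>
    E1 ≤ e → Exc y.1 y.2 P v u1 u2 e m) with hS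
  have hfacts : ∀ q ∈ T, 0 < q ∧ q < r := by
    intro q hq
    obtain ⟨h1, h2⟩ := mem_filter.1 hq
    exact ⟨hF q h1, h2.1⟩
  have hinj : Set.InjOn φ (T : Set ℕ) := by
    intro q hq q' hq' heq
    obtain ⟨hq0, hqr⟩ := hfacts q hq
    obtain ⟨hq0', hqr'⟩ := hfacts q' hq'
    simp only [hφ, Sigma.mk.injEq, heq_eq_eq] at heq
    obtain ⟨h1, h2⟩ := heq
    have hg0 : 0 < Nat.gcd q r := Nat.gcd_pos_of_pos_left _ hq0
    have hg0' : 0 < Nat.gcd q' r := Nat.gcd_pos_of_pos_left _ hq0'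
    have hgg : Nat.gcd q r = Nat.gcd q' r := by
      have h3 : r / Nat.gcd q r * Nat.gcd q r = r := Nat.div_mul_cancel (Nat.gcd_dvd_right q r)
      have h4 : r / Nat.gcd q' r * Nat.gcd q' r = r := Nat.div_mul_cancel (Nat.gcd_dvd_right q' r)
      rw [h1] at h3
      have h5 : 0 < r / Nat.gcd q' r := Nat.div_pos (Nat.le_of_dvd hr (Nat.gcd_dvd_right q' r)) hg0'
      exact Nat.eq_of_mul_eq_mul_left h5 (h3.trans h4.symm)
    rw [hgg] at h2
    have h6 : q / Nat.gcd q' r ≤ r / Nat.gcd q' r := Nat.div_le_div_right hqr.le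
    have h7 : q' / Nat.gcd q' r ≤ r / Nat.gcd q' r := Nat.div_le_div_right hqr'.le
    have h8 : q / Nat.gcd q' r = q' / Nat.gcd q' r := by omega
    have h9 : q / Nat.gcd q' r * Nat.gcd q' r = q :=
      Nat.div_mul_cancel (hgg ▸ Nat.gcd_dvd_left q r)
    have h10 : q' / Nat.gcd q' r * Nat.gcd q' r = q' := Nat.div_mul_cancel (Nat.gcd_dvd_left q' r)
    calc q = q / Nat.gcd q' r * Nat.gcd q' r := h9.symm
      _ = q' / Nat.gcd q' r * Nat.gcd q' r := by rw [h8]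
      _ = q' := h10
  have himg : T.image φ ⊆ S := by
    intro p hp
    obtain ⟨q, hq, rfl⟩ := mem_image.1 hp
    obtain ⟨hq0, hqr⟩ := hfacts q hq
    have hg0 : 0 < Nat.gcd q r := Nat.gcd_pos_of_pos_left _ hq0
    have hgq : Nat.gcd q r ∣ q := Nat.gcd_dvd_left q r
    have hgr : Nat.gcd q r ∣ r := Nat.gcd_dvd_right q r
    have h1 : 0 < q / Nat.gcd q r := Nat.div_pos (Nat.le_of_dvd hq0 hgq) hg0
    have h2 : q / Nat.gcd q r < r / Nat.gcd q r := by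
      have h3 : q / Nat.gcd q r * Nat.gcd q r = q := Nat.div_mul_cancel hgq
      have h4 : r / Nat.gcd q r * Nat.gcd q r = r := Nat.div_mul_cancel hgr
      by_contra hcon
      push Not at hcon
      have := Nat.mul_le_mul_right (Nat.gcd q r) hcon
      omega
    have h3 : r / Nat.gcd q r ≤ r := Nat.div_le_self _ _
    simp only [hS, hφ, mem_sigma, mem_Ico, mem_filter]
    refine ⟨⟨by omega, by omega⟩, ⟨by omega, by omega⟩, fun hE => ?_⟩
    exact exc_of_sml hlnk E1 P v u1 u2 y ψ q r hq0 hE (mem_filter.1 hq).2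
  calc ∑ q ∈ T, 1 / ((r / Nat.gcd q r : ℕ) : ℝ) ^ 2
      = ∑ q ∈ T, (fun p : (Σ _ : ℕ, ℕ) => 1 / (p.1 : ℝ) ^ 2) (φ q) := rfl
    _ = ∑ p ∈ T.image φ, 1 / (p.1 : ℝ) ^ 2 := 
        (sum_image (f := fun p : (Σ _ : ℕ, ℕ) => 1 / (p.1 : ℝ) ^ 2) hinj).symm
    _ ≤ ∑ p ∈ S, 1 / (p.1 : ℝ) ^ 2 :=
        sum_le_sum_of_subset_of_nonneg himg fun p _ _ => by positivity
    _ = ∑ e ∈ Ico 1 (E1 + r + 1), ((((Ico 1 e).filter fun m : ℕ =>
          E1 ≤ e → Exc y.1 y.2 P v u1 u2 e m).card : ℕ) : ℝ) / (e : ℝ) ^ 2 := by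
        rw [hS, sum_sigma]
        refine sum_congr rfl fun e _ => ?_
        simp only [sum_const, nsmul_eq_mul]
        ring
    _ ≤ ∑ e ∈ Ico 1 (E1 + r + 1), ((if e < E1 then (1 : ℝ) else 0) +
          (if E0 ≤ e then ((((Ico 1 e).filter fun m : ℕ => Exc y.1 y.2 P v u1 u2 e m).card
            : ℕ) : ℝ) / (e : ℝ) ^ 2 else 0)) := by
        refine sum_le_sum fun e he => ?_
        have he1 : 1 ≤ e := (mem_Ico.1 he).1
        have he0 : (1 : ℝ) ≤ e := by exact_mod_cast he1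
        by_cases hlt : e < E1
        · rw [if_pos hlt]
          have h1 : ((((Ico 1 e).filter fun m : ℕ =>
              E1 ≤ e → Exc y.1 y.2 P v u1 u2 e m).card : ℕ) : ℝ) ≤ e := by
            have : ((Ico 1 e).filter fun m : ℕ =>
              E1 ≤ e → Exc y.1 y.2 P v u1 u2 e m).card ≤ e := by
              refine (card_filter_le _ _).trans ?_
              rw [Nat.card_Ico]; omega
            exact_mod_cast this
          have h2 : ((((Ico 1 e).filter fun m : ℕ =>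
              E1 ≤ e → Exc y.1 y.2 P v u1 u2 e m).card : ℕ) : ℝ) / (e : ℝ) ^ 2 ≤ 1 := by
            rw [div_le_one (by positivity)]
            nlinarith
          have h3 : (0 : ℝ) ≤ (if E0 ≤ e then ((((Ico 1 e).filter fun m : ℕ =>
            Exc y.1 y.2 P v u1 u2 e m).card : ℕ) : ℝ) / (e : ℝ) ^ 2 else 0) := by
            split_ifs <;> positivity
          linarith
        · push Not at hlt
          rw [if_neg (by omega), if_pos (by omega), zero_add]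
          refine le_of_eq ?_
          congr 4
          ext m
          simp [hlt]
    _ = ∑ e ∈ (Ico 1 (E1 + r + 1)).filter (fun e => e < E1), (1 : ℝ) +
        ∑ e ∈ (Ico 1 (E1 + r + 1)).filter (fun e => E0 ≤ e),
          ((((Ico 1 e).filter fun m : ℕ => Exc y.1 y.2 P v u1 u2 e m).card
            : ℕ) : ℝ) / (e : ℝ) ^ 2 := by
        rw [sum_add_distrib, sum_filter, sum_filter]
    _ ≤ E1 + C := by
        refine add_le_add ?_ ?_
        · rw [sum_const, nsmul_eq_mul, mul_one]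
          have : ((Ico 1 (E1 + r + 1)).filter (fun e => e < E1)).card ≤ E1 := by
            calc ((Ico 1 (E1 + r + 1)).filter (fun e => e < E1)).card ≤ (range E1).card :=
                  card_le_card fun e he => mem_range.2 (mem_filter.1 he).2
              _ = E1 := card_range _
          exact_mod_cast this
        · refine le_trans (sum_le_sum_of_subset_of_nonneg ?_ fun e _ _ => by positivity)
            (hC (E1 + r + 1))
          intro e he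
          obtain ⟨h1, h2⟩ := mem_filter.1 he
          exact mem_Ico.2 ⟨h2, (mem_Ico.1 h1).2⟩

end Pool.Agent.W2helper18.KG
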