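import Mathlib
import Pool.Agent.W2helper18.KG.Sm2

set_option autoImplicit false

open MeasureTheory Finset Filter

namespace Pool.Agent.W2helper18.KG

open Classical in
/-- **The second moment.** -/
theorem p_sm (hker : P_KER) (hlnk : P_LNK) (hcnt : P_CNT) (hstr : P_STR) (hrem : P_REM) : P_SM := by
  intro y τ hτ
  obtain ⟨CK, hCK0, hCK⟩ := hker
  obtain ⟨C, E0, P, v, u1, u2, hC0, _, hcop, hsum⟩ := hstr y.1 y.2
  obtain ⟨E1', hE1'⟩ := hrem P v u1 u2 hcop τ hτ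
  set E1 := max E0 E1' with hE1
  have hE01 : E0 ≤ E1 := le_max_left _ _
  have hsum' : ∀ n : ℕ, ∑ e ∈ Ico E0 n, ((((Ico 1 e).filter fun m : ℕ =>
      Exc y.1 y.2 P v u1 u2 e m).card : ℕ) : ℝ) / (e : ℝ) ^ 2 ≤ C := by
    intro n
    refine le_trans (le_of_eq ?_) (hsum n)
    refine sum_congr rfl fun e _ => ?_
    congr 3
  set G := GG E1 P v u1 u2 with hG
  have hGsub : ∀ q : ℕ, G q ⊆ range q ×ˢ range q := by
    intro q
    rw [hG]
    unfold GG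
    exact filter_subset _ _
  refine ⟨256 + 8 * CK + 8 * (E1 + C) + 4, G, by positivity, hGsub, ?_, ?_⟩
  · intro r hr
    have h1 := hE1' r hr
    have h2 : (G r).card + ((range r ×ˢ range r).filter fun b : ℕ × ℕ => ∃ e : ℕ, E1 ≤ e ∧ 0 < e ∧
        P e ∧ e ∣ r ∧ (e : ℤ) ∣ v e * b.1 + u1 e ∧ (e : ℤ) ∣ v e * b.2 + u2 e).card = r ^ 2 := by
      have h3 := card_filter_add_card_filter_not (s := range r ×ˢ range r) (p := fun b : ℕ × ℕ =>
        ∃ e : ℕ, E1 ≤ e ∧ 0 < e ∧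
        P e ∧ e ∣ r ∧ (e : ℤ) ∣ v e * b.1 + u1 e ∧ (e : ℤ) ∣ v e * b.2 + u2 e)
      rw [card_product, card_range] at h3
      rw [hG]
      unfold GG
      rw [add_comm, sq]
      convert h3
    have h4 : ((range r ×ˢ range r).filter fun b : ℕ × ℕ => ∃ e : ℕ, E1 ≤ e ∧ 0 < e ∧
        P e ∧ e ∣ r ∧ (e : ℤ) ∣ v e * b.1 + u1 e ∧ (e : ℤ) ∣ v e * b.2 + u2 e).card ≤
        ((range r ×ˢ range r).filter fun b : ℕ × ℕ => ∃ e : ℕ, E1' ≤ e ∧ 0 < e ∧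
        P e ∧ e ∣ r ∧ (e : ℤ) ∣ v e * b.1 + u1 e ∧ (e : ℤ) ∣ v e * b.2 + u2 e).card := by
      refine card_le_card fun b hb => ?_
      obtain ⟨hb1, e, he, hrest⟩ := mem_filter.1 hb
      exact mem_filter.2 ⟨hb1, e, (le_max_right _ _).trans he, hrest⟩
    have h5 : ((G r).card : ℝ) + ((((range r ×ˢ range r).filter fun b : ℕ × ℕ => ∃ e : ℕ, E1 ≤ e ∧
        0 < e ∧ P e ∧ e ∣ r ∧ (e : ℤ) ∣ v e * b.1 + u1 e ∧
        (e : ℤ) ∣ v e * b.2 + u2 e).card : ℕ) : ℝ) = (r : ℝ) ^ 2 := by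
      exact_mod_cast h2
    have h6 : ((((range r ×ˢ range r).filter fun b : ℕ × ℕ => ∃ e : ℕ, E1 ≤ e ∧
        0 < e ∧ P e ∧ e ∣ r ∧ (e : ℤ) ∣ v e * b.1 + u1 e ∧
        (e : ℤ) ∣ v e * b.2 + u2 e).card : ℕ) : ℝ) ≤ τ * (r : ℝ) ^ 2 :=
      le_trans (by exact_mod_cast h4) h1
    linarith
  · intro ψ h0 h1 F hF
    set Ψ : ℝ := ∑ q ∈ F, ψ q ^ 2 with hΨ
    have hΨ0 : 0 ≤ Ψ := sum_nonneg fun q _ => sq_nonneg _
    set KK : ℕ → ℕ → ℝ := fun q r => Real.sqrt (ψ q) ^ 3 * Real.sqrt (ψ r) ^ 3 *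
        ((((q / Nat.gcd q r) * (r / Nat.gcd q r) : ℕ) : ℝ) ^ (-(3 / 8) : ℝ)) with hKK
    have hKK0 : ∀ q r, 0 ≤ KK q r := fun q r => by simp only [hKK]; positivity
    have hKKs : ∀ q r, KK q r = KK r q := by
      intro q r
      simp only [hKK]
      rw [Nat.gcd_comm q r, mul_comm (q / Nat.gcd r q) (r / Nat.gcd r q)]
      ring
    set DD : ℕ → ℕ → ℝ := fun q r => 4 * ψ r ^ 2 *
      (if Sml G y ψ q r then 1 / ((r / Nat.gcd q r : ℕ) : ℝ) ^ 2 else 0) with hDD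
    have hDD0 : ∀ q r, 0 ≤ DD q r := fun q r => by
      simp only [hDD]
      split_ifs <;> positivity
    have hpt : ∀ q ∈ F, ∀ r ∈ F, ∑ a ∈ G q, ∑ b ∈ G r,
        (volume : Measure TT).real (bx q a y (ψ q / q) ∩ bx r b y (ψ r / r)) ≤
        256 * (ψ q ^ 2 * ψ r ^ 2) + 8 * KK q r + (DD q r + DD r q) +
          (if q = r then 4 * ψ q ^ 2 else 0) := by
      intro q hq r hr
      have hq0 := hF q hq
      have hr0 := hF r hr
      have hd : (0 : ℝ) ≤ (if q = r then 4 * ψ q ^ 2 else 0) := by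
        split_ifs <;> positivity
      rcases lt_trichotomy q r with h | h | h
      · have h2 := pair_lt hcnt G hGsub y ψ h0 h1 q r hq0 h
        have h3 : (if Sml G y ψ q r then 4 * ψ r ^ 2 / ((r / Nat.gcd q r : ℕ) : ℝ) ^ 2 else 0) =
            DD q r := by
          simp only [hDD]
          split_ifs
          · rw [mul_one_div]
          · rw [mul_zero]
        rw [h3] at h2
        have := hDD0 r q
        simp only [hKK] at h2 ⊢
        linarith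
      · subst h
        have h2 := pair_eq hcnt G hGsub y ψ h0 h1 q hq0
        rw [if_pos rfl]
        have h3 : 0 ≤ 256 * (ψ q ^ 2 * ψ q ^ 2) := by positivity
        have h4 := hKK0 q q
        have h5 := hDD0 q q
        linarith
      · have h2 := pair_lt hcnt G hGsub y ψ h0 h1 r q hr0 h
        have h3 : (if Sml G y ψ r q then 4 * ψ q ^ 2 / ((q / Nat.gcd r q : ℕ) : ℝ) ^ 2 else 0) =
            DD r q := by
          simp only [hDD]
          split_ifs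
          · rw [mul_one_div]
          · rw [mul_zero]
        rw [h3, ← ov_symm q r y (ψ q / q) (ψ r / r) (G q) (G r)] at h2
        have h4 := hDD0 q r
        have h5 := hKKs q r
        have h6 : KK r q = Real.sqrt (ψ r) ^ 3 * Real.sqrt (ψ q) ^ 3 *
          ((((r / Nat.gcd r q) * (q / Nat.gcd r q) : ℕ) : ℝ) ^ (-(3 / 8) : ℝ)) := rfl
        rw [← h6] at h2
        linarith
    have hker' := hCK F hF (fun q => Real.sqrt (ψ q)) fun q => Real.sqrt_nonneg _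
    have hs4 : ∑ q ∈ F, Real.sqrt (ψ q) ^ 4 = Ψ := by
      rw [hΨ]
      refine sum_congr rfl fun q _ => ?_
      calc Real.sqrt (ψ q) ^ 4 = (Real.sqrt (ψ q) ^ 2) ^ 2 := by ring
        _ = _ := by rw [Real.sq_sqrt (h0 q)]
    simp only [hs4] at hker'
    have hsmall : ∀ r ∈ F, ∑ q ∈ F, DD q r ≤ 4 * ψ r ^ 2 * (E1 + C) := by
      intro r hr
      simp only [hDD]
      rw [← mul_sum]
      refine mul_le_mul_of_nonneg_left ?_ (by positivity)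
      exact sml_sum hlnk C E0 E1 P v u1 u2 y hE01 hsum' ψ F hF r (hF r hr)
    have hD1 : ∑ q ∈ F, ∑ r ∈ F, DD q r ≤ 4 * (E1 + C) * Ψ := by
      rw [sum_comm]
      refine (sum_le_sum hsmall).trans (le_of_eq ?_)
      rw [hΨ, mul_sum]
      exact sum_congr rfl fun _ _ => by ring
    have hD2 : ∑ q ∈ F, ∑ r ∈ F, DD r q ≤ 4 * (E1 + C) * Ψ := by
      refine (sum_le_sum hsmall).trans (le_of_eq ?_)
      rw [hΨ, mul_sum]
      exact sum_congr rfl fun _ _ => by ring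
    have hdiag : ∑ q ∈ F, ∑ r ∈ F, (if q = r then 4 * ψ q ^ 2 else 0) = 4 * Ψ := by
      rw [hΨ, mul_sum]
      refine sum_congr rfl fun q hq => ?_
      rw [sum_ite_eq, if_pos hq]
    have hfar : ∑ q ∈ F, ∑ r ∈ F, 256 * (ψ q ^ 2 * ψ r ^ 2) = 256 * Ψ ^ 2 := by
      rw [hΨ, sq, sum_mul_sum, mul_sum]
      refine sum_congr rfl fun q _ => ?_
      rw [mul_sum]
    have hKsum : ∑ q ∈ F, ∑ r ∈ F, 8 * KK q r ≤ 8 * (CK * Real.sqrt Ψ ^ 3) := by
      calc ∑ q ∈ F, ∑ r ∈ F, 8 * KK q r = 8 * ∑ q ∈ F, ∑ r ∈ F, KK q r := by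
            rw [mul_sum]
            refine sum_congr rfl fun q _ => ?_
            rw [mul_sum]
        _ ≤ _ := mul_le_mul_of_nonneg_left hker' (by norm_num)
    have hsq : Real.sqrt Ψ ^ 3 ≤ (1 + Ψ) ^ 2 := by
      have h2 : Real.sqrt Ψ ^ 2 = Ψ := Real.sq_sqrt hΨ0
      have h3 : 0 ≤ Real.sqrt Ψ := Real.sqrt_nonneg _
      have h4 : Real.sqrt Ψ ≤ 1 + Ψ := by nlinarith [sq_nonneg (Real.sqrt Ψ - 1)]
      calc Real.sqrt Ψ ^ 3 = Real.sqrt Ψ ^ 2 * Real.sqrt Ψ := by ring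
        _ = Ψ * Real.sqrt Ψ := by rw [h2]
        _ ≤ (1 + Ψ) * (1 + Ψ) := by gcongr; linarith
        _ = _ := by ring
    calc ∑ q ∈ F, ∑ r ∈ F, ∑ a ∈ G q, ∑ b ∈ G r,
        (volume : Measure TT).real (bx q a y (ψ q / q) ∩ bx r b y (ψ r / r))
        ≤ ∑ q ∈ F, ∑ r ∈ F, (256 * (ψ q ^ 2 * ψ r ^ 2) + 8 * KK q r + (DD q r + DD r q) +
          (if q = r then 4 * ψ q ^ 2 else 0)) :=
          sum_le_sum fun q hq => sum_le_sum fun r hr => hpt q hq r hr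
      _ = ∑ q ∈ F, ∑ r ∈ F, 256 * (ψ q ^ 2 * ψ r ^ 2) + ∑ q ∈ F, ∑ r ∈ F, 8 * KK q r +
          (∑ q ∈ F, ∑ r ∈ F, DD q r + ∑ q ∈ F, ∑ r ∈ F, DD r q) +
          ∑ q ∈ F, ∑ r ∈ F, (if q = r then 4 * ψ q ^ 2 else 0) := by
          simp only [sum_add_distrib]
      _ ≤ 256 * Ψ ^ 2 + 8 * (CK * Real.sqrt Ψ ^ 3) + (4 * (E1 + C) * Ψ + 4 * (E1 + C) * Ψ) + 4 * Ψ := by
          rw [hfar, hdiag]
          linarith
      _ ≤ 256 * (1 + Ψ) ^ 2 + 8 * (CK * (1 + Ψ) ^ 2) +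
          (4 * (E1 + C) * (1 + Ψ) ^ 2 + 4 * (E1 + C) * (1 + Ψ) ^ 2) + 4 * (1 + Ψ) ^ 2 := by
          have hE1C : 0 ≤ 4 * ((E1 : ℝ) + C) := by positivity
          have h5 : Ψ ≤ (1 + Ψ) ^ 2 := by nlinarith
          have h6 : Ψ ^ 2 ≤ (1 + Ψ) ^ 2 := by nlinarith
          gcongr
      _ = _ := by ring

end Pool.Agent.W2helper18.KG
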